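import Pool.Agent.Q97.RL.R12
import Pool.Agent.Q286.XG.HW2

/-!
# MP_7193be_nt: the explicit formula for the cohomology of a scheme over `ℤ[1/N]` has essentially one positive solution

Let `X` be a proper smooth scheme over `ℤ[1/N]`, and suppose that the L-function of `H^i(X)` is a product of
L-functions of holomorphic newforms, of arbitrary levels and nebentypus characters and of weights
`k ≤ i + 1`, `k ≡ i + 1 mod 2`, twisted `j = (i + 1 - k)/2` times.  Examples: `H¹` of all modular curves
`X_0(M)`, `X_1(M)` and of their quotients, of all abelian varieties over `ℚ` of `GL₂`-type and their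
products (Khare-Wintenberger, Ribet), of all curves of which the Jacobian is such a product; `H³` of the
rigid Calabi-Yau threefolds (Gouvêa-Yui, Dieulefait); `H^i`, `i` odd, of products of these with varieties all of
whose cohomology is algebraic over `ℚ`; `H^i`, `i` odd, of the powers of an elliptic curve over `ℚ` with complex
multiplication (newforms of the weights `2, 4, …, i + 1`).
Let `Λ(s)` be the completed L-function; part (d) of the problem says that all its zeros are on the line
`Re s = (i + 1)/2`.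

Let `t(p^k)` be the trace of the `k`-th power of Frobenius on `H^i`, which for `p ∤ N` is determined by the numbers of
points of `X` over the finite fields.  For `b > 0` let `W` be Weil's quadratic form of `H^i` on the functions on
`[-b, b]`, written through the conductor, the Gamma factor and the numbers `t(p^k)` with `p^k ≤ P = exp (2 b)`; no zero of
`Λ` enters.  Let `c = (i + 1)/2` and `M f s = ∫ f(x) exp ((s - c) x) dx`.  Under (d) the counting measure of the ordinates of the zeros is a positive solution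
`μ` of the equation `W f = ∫ |M f (c + i t)|² dμ(t)`, for all `b` and `f` (explicit formula); and (d) is true if and only if positive solutions exist for all `b`.

Fix now `b` and consider the equation only for the smooth test functions in `(-b, b)`, or only for the trigonometric polynomials of degree at most `n` on `[-b, b]`.
It has many positive solutions.  The theorem says, without any hypothesis, that all of them, and all measures which satisfy the equation up to factors
`x` and `y`, agree with the counting of the zeros (with multiplicity, and including zeros off the line) up to the height `4 π cos u (P / A) ^ (1 / m)`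
(`A` the conductor, `m` the dimension of `H^i`), up to `exp (- v P ^ (1 / m))`, for every `v < 2 π m A ^ (-1 / m) (sin u - u cos u)`, `0 < u < π / 2`.  So positivity and the
numbers of points over the finite fields with at most `P` elements determine all zeros up to the height `T` if `A (T / 4 π) ^ m` is smaller than
`P` (for comparison: `A (T / 2 π) ^ m` is the analytic conductor).  The same holds at all smaller scales `K b ≤ h ≤ P ^ (1 / m)`, where trigonometric polynomials of degree `K b h` suffice; and a degree `n` never determines anything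
beyond the height `π (n + 2) / b`.
-/

set_option autoImplicit false

open Complex AlgebraicGeometry CategoryTheory MeasureTheory Filter Topology Set
open scoped ComplexConjugate
open Pool.Agent.Q246.HW

namespace Pool.Agent.Results.MP_7193be_nt.RigidityOfTheExplicitFormula

/-- The sums `u^k + v^k`, where `u + v = s` and `u v = e`. -/
noncomputable def powers (s e : ℂ) : ℕ → ℂ
  | 0 => 2
  | 1 => s
  | k + 2 => s * powers s e (k + 1) - e * powers s e k

/-- The trace of the `k`-th power of Frobenius at `p` on `H^i` (`k ≥ 1`): the sum of the `k`-th powers of the reciprocal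
roots of `P_i(X(p), T)` for `p ∤ N`, and of the product of the Euler polynomials of the newforms for `p ∣ N`. -/
noncomputable def trace (N i : ℕ) (R : ℕ → ℕ → Multiset ℂ) (l : List Newform) (p k : ℕ) : ℂ :=
  if p ∣ N then (l.map fun g => powers (a g.f p * (p : ℂ) ^ g.twist i) (g.ψ (p : ZMod g.N) * (p : ℂ) ^ i) k).sum
  else ((R p i).map fun α => α ^ k).sum

/-- The Gamma factor `∏ Γ_ℂ(s - j)`, the product over the newforms of the list with `j = (i + 1 - k) / 2`. -/
noncomputable def gamma (i : ℕ) (l : List Newform) (s : ℂ) : ℂ := (l.map fun g => Gammaℂ (s - g.twist i)).prod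

/-- Part (d) of the problem: all zeros of `Λ` have real part `(i + 1)/2`. -/
def RiemannHypothesis (i : ℕ) (Λ : ℂ → ℂ) : Prop := ∀ s : ℂ, Λ s = 0 → s.re = ((i : ℝ) + 1) / 2

/-! ### The quadratic form -/

/-- The trigonometric polynomials of degree at most `n` on `[-b, b]`, extended by `0`. -/
def Trig (b : ℝ) (n : ℕ) (f : ℝ → ℂ) : Prop := ∃ c : ℤ → ℂ, ∀ x : ℝ,
  f x = if |x| ≤ b then ∑ k ∈ Finset.Icc (-(n : ℤ)) n, c k * cexp ((Real.pi * k * x / b : ℝ) * I) else 0

/-- The Mellin transform of `f` in the logarithmic variable, centred at `(i + 1)/2`. -/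
noncomputable def M (i : ℕ) (f : ℝ → ℂ) (s : ℂ) : ℂ := ∫ x : ℝ, f x * cexp ((s - ((i : ℂ) + 1) / 2) * x)

/-- Weil's quadratic form of `H^i` for functions supported in `[-b, b]`: the conductor and the Gamma factor, and the traces
of Frobenius for the prime powers `n ≤ exp (2 b)`. -/
noncomputable def W (N i : ℕ) (R : ℕ → ℕ → Multiset ℂ) (l : List Newform) (b : ℝ) (f : ℝ → ℂ) : ℝ :=
  1 / (2 * Real.pi) * (∫ x : ℝ, (Real.log ((l.map Newform.N).prod : ℕ) +
    2 * (logDeriv (gamma i l) (((i : ℂ) + 1) / 2 + x * I)).re) * ‖M i f (((i : ℂ) + 1) / 2 + x * I)‖ ^ 2) -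
  2 * (∑ n ∈ Finset.Icc 1 ⌊Real.exp (2 * b)⌋₊,
    ArithmeticFunction.vonMangoldt n / (((n : ℝ) ^ (((i : ℝ) + 1) / 2) : ℝ) : ℂ) *
    trace N i R l n.minFac (n.factorization n.minFac) * ∫ x : ℝ, f (x + Real.log n) * (starRingEnd ℂ) (f x)).re

/-- The degree of the L-function, that is the dimension of `H^i`: every newform contributes `2`. -/
def deg (l : List Newform) : ℕ := 2 * l.length

/-- The conductor of the L-function: the product of the levels of the newforms. -/
def cond (l : List Newform) : ℕ := (l.map Newform.N).prod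

/-! ### Measures which solve the explicit formula -/

/-- The smooth functions with compact support in `(-b, b)`. -/
def Test (b : ℝ) (f : ℝ → ℂ) : Prop := ContDiff ℝ ((⊤ : ℕ∞) : WithTop ℕ∞) f ∧ tsupport f ⊆ Ioo (-b) b

/-- The measure `μ` on the real line satisfies the explicit formula, with the form `F`, for `f` up to the factors `x`, `y`; for `x = y = 1` exactly. -/
def Comp (F : ℝ → (ℝ → ℂ) → ℝ) (i : ℕ) (b x y : ℝ) (μ : Measure ℝ) (f : ℝ → ℂ) : Prop :=
  Integrable (fun t : ℝ => ‖M i f (((i : ℂ) + 1) / 2 + t * I)‖ ^ 2) μ ∧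
    x * F b f ≤ ∫ t : ℝ, ‖M i f (((i : ℂ) + 1) / 2 + t * I)‖ ^ 2 ∂μ ∧ ∫ t : ℝ, ‖M i f (((i : ℂ) + 1) / 2 + t * I)‖ ^ 2 ∂μ ≤ y * F b f

/-- The number of the zeros of `Λ` with ordinates in `(s, t)`, on the critical line or not, counted with multiplicity. -/
noncomputable def Zeros (Λ : ℂ → ℂ) (s t : ℝ) : ℝ :=
  ∑' ρ : {ρ : ℂ // Λ ρ = 0}, if s < (ρ : ℂ).im ∧ (ρ : ℂ).im < t then (analyticOrderNatAt Λ (ρ : ℂ) : ℝ) else 0

/-- `μ (s, t)` is finite, and equal to the number of the zeros up to the factors `x`, `y` and the error `e`. -/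
def Close (Λ : ℂ → ℂ) (x y e : ℝ) (μ : Measure ℝ) (s t : ℝ) : Prop := μ (Ioo s t) ≠ ⊤ ∧
  x * Zeros Λ s t - y * e ≤ (μ (Ioo s t)).toReal ∧ (μ (Ioo s t)).toReal ≤ y * (Zeros Λ s t + e)

/-- The conclusion: every measure on the real line which satisfies the explicit formula up to some factors `x ≥ 0`, `y > 0` for the functions in the class `C`
is close to the zeros, with the error `e`, on all intervals `(s, t)`, `|s|, |t| ≤ r`, whose end points have distance at least `d` from the ordinates of the zeros. -/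
def Rigid (F : ℝ → (ℝ → ℂ) → ℝ) (i : ℕ) (Λ : ℂ → ℂ) (b : ℝ) (C : (ℝ → ℂ) → Prop) (r d e : ℝ) : Prop := ∀ (x y : ℝ) (μ : Measure ℝ), 0 ≤ x → 0 < y →
  (∀ f, C f → Comp F i b x y μ f) → ∀ s t : ℝ, |s| ≤ r → |t| ≤ r → (∀ ρ : ℂ, Λ ρ = 0 → d ≤ |s - ρ.im| ∧ d ≤ |t - ρ.im|) → Close Λ x y e μ s t

/-! ### The proof -/

lemma powers_eq (s e : ℂ) : ∀ k : ℕ, powers s e k = Pool.Agent.H304R3.HK.ts s e k ∧
    powers s e (k + 1) = Pool.Agent.H304R3.HK.ts s e (k + 1) := by
  intro k
  induction k with
  | zero => exact ⟨rfl, rfl⟩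
  | succ k ih =>
    refine ⟨ih.2, ?_⟩
    show s * powers s e (k + 1) - e * powers s e k =
      s * Pool.Agent.H304R3.HK.ts s e (k + 1) - e * Pool.Agent.H304R3.HK.ts s e k
    rw [ih.1, ih.2]

lemma trace_eq (N i : ℕ) (R : ℕ → ℕ → Multiset ℂ) (l : List Newform) (p k : ℕ) :
    trace N i R l p k = Pool.Agent.Q286.TR.trH N i R l p k := by
  unfold trace Pool.Agent.Q286.TR.trH
  simp only [(powers_eq _ _ k).1]

lemma outR {N i : ℕ} {R : ℕ → ℕ → Multiset ℂ} {l : List Newform} (h : Attached N i R l) {F Λ : ℂ → ℂ}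
    (hc : IsCompleted N i R l F Λ) :
    Pool.Agent.Q97.RL.OutR (W N i R l) Λ (((i : ℂ) + 1) / 2) (((i : ℝ) + 1) / 2) (deg l) (cond l) := by
  obtain ⟨L, hm, hQ, h1, k, hk, h3⟩ := Pool.Agent.Q286.TR.exH2 h hc
  have hm' : L.m = deg l := hm
  have hQ' : L.Q = cond l := hQ
  have hW : ∀ (b : ℝ) (g : ℝ → ℂ), W N i R l b g = Pool.Agent.Q286.TR.W L b g := fun b g => by
    rw [h1]
    unfold W Pool.Agent.Q286.TR.WH
    simp only [trace_eq]
    rfl
  have hcr : ((i : ℂ) + 1) / 2 = ((((i : ℝ) + 1) / 2 : ℝ) : ℂ) := by push_cast; ring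
  have H := Pool.Agent.Q97.RL.outR (L := L) (Λ := Λ) (V := W N i R l) hc.entire hcr hk h3 (fun b _ f _ => hW b f)
  rw [hm', hQ'] at H
  exact H

/-- **The theorem.** Let `X` be a proper smooth scheme over `ℤ[1/N]` of relative dimension `d`, let `R p i` be the
reciprocal roots of `P_i(X(p), T)`, `p ∤ N`, and let `H^i` be attached to the list `l` of newforms. -/
theorem result (N d i : ℕ) (hN : 1 ≤ N) (X : Scheme.{0})
    (π : X ⟶ Spec (CommRingCat.of (Localization.Away (N : ℤ)))) [IsProper π] [SmoothOfRelativeDimension d π]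
    (R : ℕ → ℕ → Multiset ℂ) (hR : IsWeil X N d R) (hi : i ≤ 2 * d) (l : List Newform) (hl : Attached N i R l) :
    ∃ F Λ : ℂ → ℂ, IsCompleted N i R l F Λ ∧
      (∀ F' Λ' : ℂ → ℂ, IsCompleted N i R l F' Λ' → F' = F ∧ Λ' = Λ) ∧
      (∀ u v : ℝ, 0 < u → u < Real.pi / 2 → 0 < v → v < 2 * Real.pi * deg l * (cond l : ℝ) ^ (-(1 / (deg l : ℝ))) * (Real.sin u - u * Real.cos u) →
        ∃ k K : ℝ, 0 < k ∧ ∀ b h : ℝ, K ≤ b → K * b ≤ h → h ≤ Real.exp (2 * b / deg l) →
          Rigid (W N i R l) i Λ b (Test b) (4 * Real.pi * Real.cos u * (cond l : ℝ) ^ (-(1 / (deg l : ℝ))) * h)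
            (Real.exp (-(k * h / Real.log h))) (Real.exp (-(v * h))) ∧
          ∀ n : ℕ, K * b * h ≤ n →
            Rigid (W N i R l) i Λ b (Trig b n) (4 * Real.pi * Real.cos u * (cond l : ℝ) ^ (-(1 / (deg l : ℝ))) * h)
              (Real.exp (-(k * h / Real.log h))) (Real.exp (-(v * h)))) ∧
      (∀ (b s t : ℝ) (n : ℕ), 0 < b → 0 ≤ s → Real.pi < b * (t - s) → n + 1 < b * t / Real.pi → ∀ (x y : ℝ) (μ : Measure ℝ),
        (∀ f, Trig b n f → Comp (W N i R l) i b x y μ f) → ∀ z : ℝ, 0 ≤ z →
          ∃ μ' : Measure ℝ, (∀ f, Trig b n f → Comp (W N i R l) i b x y μ' f) ∧ μ' (Ioo s t) = μ (Ioo s t) + ENNReal.ofReal z) ∧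
      (RiemannHypothesis i Λ ↔ ∀ (b : ℝ) (n : ℕ), 0 < b → ∃ μ : Measure ℝ, ∀ f, Trig b n f → Comp (W N i R l) i b 1 1 μ f) ∧
      (∀ n : ℝ → ℕ, Tendsto (fun b : ℝ => (n b : ℝ) / b) atTop atTop → (RiemannHypothesis i Λ ↔
        ∀ B : ℝ, ∃ b : ℝ, B ≤ b ∧ ∃ (x y : ℝ) (μ : Measure ℝ), 0 ≤ x ∧ 0 < y ∧ ∀ f, Trig b (n b) f → Comp (W N i R l) i b x y μ f)) ∧
      (RiemannHypothesis i Λ ↔
        ∀ B : ℝ, ∃ b : ℝ, B ≤ b ∧ ∃ (x y : ℝ) (μ : Measure ℝ), 0 ≤ x ∧ 0 < y ∧ ∀ f, Test b f → Comp (W N i R l) i b x y μ f) := by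
  obtain ⟨c, Λ₀, F, hc, hF, h⟩ := exists_hw hl
  have H := outR hl h
  exact ⟨F, _, h, fun F' Λ' h' => uniq_hw h h', H.win, H.node, H.rh, H.rhn, H.rht⟩

end Pool.Agent.Results.MP_7193be_nt.RigidityOfTheExplicitFormula
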